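import Mathlib

/-!
Orbits of polynomial maps of affine space for a nonarchimedean absolute value for which only the
constant term is large.
-/

set_option autoImplicit false

namespace Run7.h197.Q

open Finset MvPolynomial

section
variable {K L : Type} [Field K] [Field L] [Algebra K L] (A : AbsoluteValue L ℝ)
  (hA : ∀ x y, A (x + y) ≤ max (A x) (A y))

include hA

lemma abs_sum_le {α : Type} (s : Finset α) (f : α → L) (B : ℝ) (hB : 0 ≤ B)
    (h : ∀ i ∈ s, A (f i) ≤ B) : A (∑ i ∈ s, f i) ≤ B := by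
  classical
  induction s using Finset.induction_on with
  | empty => simpa using hB
  | insert a s ha ih =>
    rw [Finset.sum_insert ha]
    exact (hA _ _).trans (max_le (h a (Finset.mem_insert_self a s))
      (ih fun i hi => h i (Finset.mem_insert_of_mem hi)))

/-- the larger of two values -/
lemma abs_add_eq {x y : L} (h : A y < A x) : A (x + y) = A x := by
  apply le_antisymm
  · exact (hA x y).trans (max_le le_rfl h.le)
  · have h1 := hA (x + y) (-y)
    rw [add_neg_cancel_right, A.map_neg] at h1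
    rcases le_max_iff.1 h1 with h2 | h2
    · exact h2
    · linarith

variable {ι : Type} [Fintype ι]

omit hA in
lemma monomial_le {z : ι → L} {r : ℝ} (hz : ∀ i, A (z i) ≤ r) (m : ι →₀ ℕ) :
    A (∏ i, z i ^ m i) ≤ r ^ (∑ i, m i) := by
  rw [map_prod, ← Finset.prod_pow_eq_pow_sum]
  apply Finset.prod_le_prod (fun i _ => A.nonneg _)
  intro i _
  rw [map_pow]
  exact pow_le_pow_left₀ (A.nonneg _) (hz i) _

lemma hom_le {P : MvPolynomial ι K} {d : ℕ} (hP : P.IsHomogeneous d)
    (hc : ∀ m, A (algebraMap K L (P.coeff m)) ≤ 1) {z : ι → L} {r : ℝ} (hr : 0 ≤ r)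
    (hz : ∀ i, A (z i) ≤ r) : A (aeval z P) ≤ r ^ d := by
  rw [aeval_def, eval₂_eq']
  apply abs_sum_le A hA _ _ _ (by positivity)
  intro m hm
  rw [map_mul]
  have h1 := monomial_le A hz m
  have h2 : ∑ i, m i = d := by
    have h3 := hP (mem_support_iff.1 hm)
    rw [← h3, Finsupp.weight_apply, Finsupp.sum_fintype _ _ (fun i => by simp)]
    simp
  rw [h2] at h1
  calc A (algebraMap K L (P.coeff m)) * A (∏ i, z i ^ m i) ≤ 1 * r ^ d :=
        mul_le_mul (hc m) h1 (A.nonneg _) zero_le_one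
    _ = _ := one_mul _

lemma deg_le {P : MvPolynomial ι K} {d : ℕ} (hP : P.totalDegree ≤ d)
    (hc : ∀ m, A (algebraMap K L (P.coeff m)) ≤ 1) {z : ι → L} {r : ℝ} (hr : 1 ≤ r)
    (hz : ∀ i, A (z i) ≤ r) : A (aeval z P) ≤ r ^ d := by
  rw [aeval_def, eval₂_eq']
  apply abs_sum_le A hA _ _ _ (by positivity)
  intro m hm
  rw [map_mul]
  have h1 := monomial_le A hz m
  have h2 : ∑ i, m i ≤ d := by
    have h3 := le_totalDegree hm
    rw [Finsupp.sum_fintype _ _ (fun i => rfl)] at h3
    exact h3.trans hP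
  calc A (algebraMap K L (P.coeff m)) * A (∏ i, z i ^ m i) ≤ 1 * r ^ d :=
        mul_le_mul (hc m) (h1.trans (pow_le_pow_right₀ hr h2)) (A.nonneg _) zero_le_one
    _ = _ := one_mul _

/-- the maps -/
structure Data (d : ℕ) (T R : ι → MvPolynomial ι K) : Prop where
  hom : ∀ i, (T i).IsHomogeneous d
  intT : ∀ i m, A (algebraMap K L ((T i).coeff m)) ≤ 1
  deg : ∀ i, (R i).totalDegree < d
  intR : ∀ i m, A (algebraMap K L ((R i).coeff m)) ≤ 1
  good : ∀ i, ∃ (k : K) (e : ℕ) (Q : ι → MvPolynomial ι K), A (algebraMap K L k) = 1 ∧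
    (∀ j, (Q j).IsHomogeneous e) ∧ (∀ j m, A (algebraMap K L ((Q j).coeff m)) ≤ 1) ∧
      C k * X i ^ (e + d) = ∑ j, Q j * T j

variable {A} in
lemma Data.top {d : ℕ} {T R : ι → MvPolynomial ι K} (h : Data (L := L) A d T R) {z : ι → L} {r : ℝ}
    (hr : 0 < r) (hz : ∀ i, A (z i) ≤ r) {i : ι} (hi : A (z i) = r) :
    ∃ j, A (aeval z (T j)) = r ^ d := by
  obtain ⟨k, e, Q, hk, hQ, hQc, hid⟩ := h.good i
  by_contra hcon
  push Not at hcon
  have hlt : ∀ j, A (aeval z (T j)) < r ^ d := fun j =>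
    lt_of_le_of_ne (hom_le A hA (h.hom j) (h.intT j) hr.le hz) (hcon j)
  have h1 := congrArg (fun P => A (aeval z P)) hid
  simp only [map_mul, map_pow, aeval_C, aeval_X, hk, hi, one_mul, map_sum] at h1
  have hne : Nonempty ι := ⟨i⟩
  obtain ⟨j₀, -, hj₀⟩ := Finset.exists_max_image Finset.univ (fun j => A (aeval z (T j)))
    Finset.univ_nonempty
  have h2 : A (∑ j, (aeval z) (Q j) * (aeval z) (T j)) ≤ r ^ e * A (aeval z (T j₀)) := by
    apply abs_sum_le A hA _ _ _ (mul_nonneg (by positivity) (A.nonneg _))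
    intro j _
    rw [map_mul]
    exact mul_le_mul (hom_le A hA (hQ j) (hQc j) hr.le hz) (hj₀ j (Finset.mem_univ _))
      (A.nonneg _) (by positivity)
  have h3 : r ^ e * A (aeval z (T j₀)) < r ^ e * r ^ d :=
    mul_lt_mul_of_pos_left (hlt j₀) (by positivity)
  rw [← pow_add, h1] at h3
  linarith

/-- the largest absolute value of a coordinate -/
noncomputable def nm [Nonempty ι] (z : ι → L) : ℝ :=
  Finset.univ.sup' Finset.univ_nonempty fun i => A (z i)

omit hA in
lemma le_nm [Nonempty ι] (z : ι → L) (i : ι) : A (z i) ≤ nm A z :=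
  Finset.le_sup' (fun i => A (z i)) (Finset.mem_univ i)

omit hA in
lemma exists_nm [Nonempty ι] (z : ι → L) : ∃ i, A (z i) = nm A z := by
  obtain ⟨i, -, hi⟩ := Finset.exists_mem_eq_sup' Finset.univ_nonempty fun i => A (z i)
  exact ⟨i, hi.symm⟩

omit hA in
lemma nm_eq [Nonempty ι] {z : ι → L} {r : ℝ} (h1 : ∀ i, A (z i) ≤ r) {i : ι} (h2 : A (z i) = r) :
    nm A z = r := by
  apply le_antisymm
  · exact Finset.sup'_le _ _ fun i _ => h1 i
  · rw [← h2]
    exact le_nm A z i

variable {A} in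
/-- large points -/
lemma step_large [Nonempty ι] {d : ℕ} {T R : ι → MvPolynomial ι K} (h : Data (L := L) A d T R)
    {u : ι → K} {c : ℝ} (hc : 1 < c) (hu : ∀ i, A (algebraMap K L (u i)) ≤ c) {z : ι → L}
    (hz : c < nm A z ^ d) :
    nm A (fun i => aeval z (T i + R i + C (u i))) = nm A z ^ d := by
  have hd0 : d ≠ 0 := by
    rintro rfl
    rw [pow_zero] at hz
    linarith
  have hr1 : 1 < nm A z := by
    by_contra hle
    push Not at hle
    have h0 : 0 ≤ nm A z := (A.nonneg _).trans (le_nm A z (Classical.arbitrary ι))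
    have := pow_le_one₀ (n := d) h0 hle
    linarith
  obtain ⟨r, hr⟩ : ∃ r, r = nm A z := ⟨_, rfl⟩
  rw [← hr] at hr1 hz ⊢
  have hzr : ∀ i, A (z i) ≤ r := fun i => by rw [hr]; exact le_nm A z i
  obtain ⟨i, hi⟩ := exists_nm A z
  rw [← hr] at hi
  obtain ⟨j, hj⟩ := h.top hA (by linarith) hzr hi
  have hR : ∀ i, A (aeval z (R i)) < r ^ d := by
    intro i
    have h1 := deg_le A hA (Nat.le_sub_one_of_lt (h.deg i)) (h.intR i) hr1.le hzr
    exact h1.trans_lt (pow_lt_pow_right₀ hr1 (by omega))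
  apply nm_eq (i := j)
  · intro i
    simp only [map_add, aeval_C]
    refine (hA _ _).trans (max_le ?_ ((hu i).trans hz.le))
    exact (hA _ _).trans (max_le (hom_le A hA (h.hom i) (h.intT i) (by linarith) hzr) (hR i).le)
  · simp only [map_add, aeval_C]
    have h1 : A (aeval z (T j) + aeval z (R j)) = r ^ d := by
      rw [abs_add_eq A hA (by rw [hj]; exact hR j), hj]
    rw [abs_add_eq A hA (by rw [h1]; exact (hu j).trans_lt hz), h1]

variable {A} in
/-- small points -/
lemma step_small [Nonempty ι] {d : ℕ} {T R : ι → MvPolynomial ι K} (h : Data (L := L) A d T R)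
    {u : ι → K} {c : ℝ} (hc : 1 < c) (hu : ∀ i, A (algebraMap K L (u i)) ≤ c) {i₀ : ι}
    (hu₀ : A (algebraMap K L (u i₀)) = c) {z : ι → L} (hz : nm A z ^ d < c) :
    nm A (fun i => aeval z (T i + R i + C (u i))) = c := by
  have h0 : 0 ≤ nm A z := (A.nonneg _).trans (le_nm A z (Classical.arbitrary ι))
  obtain ⟨r, hr⟩ : ∃ r, r = max (nm A z) 1 := ⟨_, rfl⟩
  have hr1 : 1 ≤ r := by rw [hr]; exact le_max_right _ _
  have hzr : ∀ i, A (z i) ≤ r := fun i => by
    rw [hr]; exact (le_nm A z i).trans (le_max_left _ _)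
  have hrc : r ^ d < c := by
    rcases le_total (nm A z) 1 with h1 | h1
    · rw [hr, max_eq_right h1, one_pow]
      exact hc
    · rw [hr, max_eq_left h1]
      exact hz
  have hTR : ∀ i, A (aeval z (T i) + aeval z (R i)) < c := by
    intro i
    refine lt_of_le_of_lt ((hA _ _).trans (max_le ?_ ?_)) hrc
    · exact hom_le A hA (h.hom i) (h.intT i) (by linarith) hzr
    · exact deg_le A hA (h.deg i).le (h.intR i) hr1 hzr
  apply nm_eq (i := i₀)
  · intro i
    simp only [map_add, aeval_C]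
    exact (hA _ _).trans (max_le (hTR i).le (hu i))
  · simp only [map_add, aeval_C]
    rw [add_comm, abs_add_eq A hA (by rw [hu₀]; exact hTR i₀), hu₀]

variable {A} in
/-- **points with a finite orbit** -/
theorem finite_orbit [Nonempty ι] {d : ℕ} (hd : 2 ≤ d) {T R : ι → MvPolynomial ι K}
    (h : Data (L := L) A d T R) {u : ι → K} {c : ℝ} (hc : 1 < c)
    (hu : ∀ i, A (algebraMap K L (u i)) ≤ c) {i₀ : ι} (hu₀ : A (algebraMap K L (u i₀)) = c)
    {z : ι → L}
    (hz : (Set.range fun k : ℕ => (fun (y : ι → L) i => aeval y (T i + R i + C (u i)))^[k] z).Finite) :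
    ∃ i, A (z i) ^ d = c := by
  obtain ⟨f, hf⟩ : ∃ f : (ι → L) → (ι → L), f = fun (y : ι → L) i => aeval y (T i + R i + C (u i)) :=
    ⟨_, rfl⟩
  rw [← hf] at hz
  have hlarge : ∀ y : ι → L, c < nm A y ^ d → nm A (f y) = nm A y ^ d := by
    intro y hy
    rw [hf]
    exact step_large hA h hc hu hy
  have hgrow : ∀ y : ι → L, c < nm A y ^ d → nm A y < nm A (f y) ∧ c < nm A (f y) ^ d := by
    intro y hy
    have h0 : 0 ≤ nm A y := (A.nonneg _).trans (le_nm A y i₀)
    have h1 : 1 < nm A y := by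
      by_contra hle
      push Not at hle
      have := pow_le_one₀ (n := d) h0 hle
      linarith
    rw [hlarge y hy]
    constructor
    · exact lt_self_pow₀ h1 (by omega)
    · refine hy.trans ?_
      exact lt_self_pow₀ (one_lt_pow₀ h1 (by omega)) (by omega)
  have hinf : ∀ y : ι → L, c < nm A y ^ d → ¬ (Set.range fun k : ℕ => f^[k] y).Finite := by
    intro y hy hfin
    have h1 : ∀ k, c < nm A (f^[k] y) ^ d := by
      intro k
      induction k with
      | zero => exact hy
      | succ k ih =>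
        rw [Function.iterate_succ_apply']
        exact (hgrow _ ih).2
    have h2 : StrictMono fun k => nm A (f^[k] y) := by
      apply strictMono_nat_of_lt_succ
      intro k
      rw [Function.iterate_succ_apply']
      exact (hgrow _ (h1 k)).1
    have h3 : Function.Injective fun k => f^[k] y := by
      intro a b hab
      exact h2.injective (congrArg (nm A) hab)
    exact Set.infinite_range_of_injective h3 hfin
  have hfz : (Set.range fun k : ℕ => f^[k] (f z)).Finite := by
    refine hz.subset ?_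
    rintro _ ⟨k, rfl⟩
    exact ⟨k + 1, Function.iterate_succ_apply f k z⟩
  obtain ⟨i, hi⟩ := exists_nm A z
  refine ⟨i, ?_⟩
  rw [hi]
  rcases lt_trichotomy (nm A z ^ d) c with h1 | h1 | h1
  · exfalso
    have h2 : nm A (f z) = c := by
      rw [hf]
      exact step_small hA h hc hu hu₀ h1
    refine hinf (f z) ?_ hfz
    rw [h2]
    exact lt_self_pow₀ hc (by omega)
  · exact h1
  · exact absurd hz (hinf z h1)

end

end Run7.h197.Q
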