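import Pool.Agent.Run7.h197.Q.Param
import Pool.Agent.Run7.h197.Q.Dyn

/-!
Polynomial maps of affine spaces of large degree for which only the constant term has poles: no
finite orbits for almost all parameters.
-/

set_option autoImplicit false

namespace Run7.h197.Q

open NumberField IsDedekindDomain Pool.Agent.H691R3 Pool.Agent.Y673.Loc Pool.Agent.Y673.Cnt
open Run7.h197.ST Height Pool.Agent.Y673.Loc.ZV Pool.Agent.K4H56.IF Run7.h197.FMS

section
variable {K : Type} [Field K] [NumberField K]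

/-- a place above `v` with small ramification index -/
theorem above_le (L : Type) [Field L] [NumberField L] [Algebra K L] (v : HeightOneSpectrum (𝓞 K)) :
    ∃ (w : HeightOneSpectrum (𝓞 L)) (e : ℕ), 1 ≤ e ∧ e ≤ Module.finrank K L ∧
      ∀ x : K, (adv L w).v (algebraMap K L x) = e * (adv K v).v x := by
  classical
  let _ : Fintype (v.asIdeal.primesOver (𝓞 L)) :=
    (Algebra.QuasiFinite.finite_primesOver v.asIdeal).fintype
  have hsum := Ideal.sum_ramification_inertia_eq_finrank v.asIdeal (𝓞 L)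
  rw [← IsFractionRing.finrank_eq (𝓞 K) K (𝓞 L) L] at hsum
  have hpos : 0 < Module.finrank K L := by
    have : FiniteDimensional K L := Module.Finite.of_restrictScalars_finite ℚ K L
    exact Module.finrank_pos
  have hne : (Finset.univ : Finset (v.asIdeal.primesOver (𝓞 L))).Nonempty := by
    by_contra hcon
    rw [Finset.not_nonempty_iff_eq_empty] at hcon
    rw [hcon, Finset.sum_empty] at hsum
    omega
  obtain ⟨P, -⟩ := hne
  have hPprime : P.1.IsPrime := P.2.1
  have hPover : P.1.LiesOver v.asIdeal := P.2.2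
  have hP0 : P.1 ≠ ⊥ := Ideal.ne_bot_of_liesOver_of_ne_bot v.ne_bot P.1
  let w : HeightOneSpectrum (𝓞 L) := ⟨P.1, hPprime, hP0⟩
  have hw : w.asIdeal.LiesOver v.asIdeal := hPover
  have he : v.asIdeal.ramificationIdx' w.asIdeal = P.1.ramificationIdx (𝓞 K) :=
    Ideal.ramificationIdx'_eq_ramificationIdx v.asIdeal P.1 v.ne_bot
  refine ⟨w, v.asIdeal.ramificationIdx' w.asIdeal, ?_, ?_, ?_⟩
  · exact Nat.one_le_iff_ne_zero.2
      (Ideal.IsDedekindDomain.ramificationIdx'_ne_zero_of_liesOver w.asIdeal v.ne_bot)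
  · rw [he, ← hsum]
    have h1 := Finset.single_le_sum (f := fun P : v.asIdeal.primesOver (𝓞 L) =>
      P.1.ramificationIdx (𝓞 K) * P.1.inertiaDeg (𝓞 K)) (fun _ _ => Nat.zero_le _)
      (Finset.mem_univ P)
    refine le_trans ?_ h1
    apply Nat.le_mul_of_pos_right
    exact Ideal.inertiaDeg_pos P.1 (𝓞 K)
  · intro x
    show -WithZero.log (w.valuation L (algebraMap K L x)) = _ * (-WithZero.log (v.valuation K x))
    rw [← HeightOneSpectrum.valuation_liesOver L v w, WithZero.log_pow]
    simp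


/-- an element of the ring of `S`-integers is integral at `w` -/
theorem fv_le_one {L : Type} [Field L] [NumberField L] [Algebra K L] {v : HeightOneSpectrum (𝓞 K)}
    {w : HeightOneSpectrum (𝓞 L)} {e : ℕ}
    (hwe : ∀ x : K, (adv L w).v (algebraMap K L x) = e * (adv K v).v x) {q : ℕ} (hq : q ≠ 0)
    (hv : (adv K v).v (q : K) = 0) {x : K} (hx : IntN q x) : fv w (algebraMap K L x) ≤ 1 := by
  have h1 : (adv L w).v (q : L) = 0 := by
    have := hwe (q : K)
    rw [hv, mul_zero, map_natCast] at this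
    exact this
  have h2 := (hx.map (algebraMap K L)).G0 hq h1
  rcases h2 with h2 | h2
  · rw [h2, AbsoluteValue.map_zero]
    exact zero_le_one
  · by_cases h0 : algebraMap K L x = 0
    · rw [h0, AbsoluteValue.map_zero]
      exact zero_le_one
    · rw [fv_adv w h0]
      exact zpow_le_one_of_nonpos₀ (by linarith [two_le_Nv w]) (by omega)

/-- from local to divisibility -/
theorem dvd_of_fv {L : Type} [Field L] [NumberField L] [Algebra K L] {v : HeightOneSpectrum (𝓞 K)}
    {w : HeightOneSpectrum (𝓞 L)} {e : ℕ} (he : 1 ≤ e)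
    (hwe : ∀ x : K, (adv L w).v (algebraMap K L x) = e * (adv K v).v x) {D : ℕ} (heD : e ≤ D)
    {c : K} (hc : c ≠ 0) {z : L} {d : ℕ} (hd : d ≠ 0) (h : fv w z ^ d = fv w (algebraMap K L c)) :
    (d : ℤ) ∣ (D.factorial : ℤ) * (adv K v).v c := by
  have hcL : algebraMap K L c ≠ 0 := (map_ne_zero_iff _ (algebraMap K L).injective).2 hc
  have hz : z ≠ 0 := by
    rintro rfl
    rw [AbsoluteValue.map_zero, zero_pow hd] at h
    exact (AbsoluteValue.ne_zero_iff _).2 hcL h.symm
  rw [fv_adv w hz, fv_adv w hcL, ← zpow_natCast, ← zpow_mul] at h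
  have h1 := Nv_zpow_inj w h
  rw [hwe] at h1
  obtain ⟨k, hk⟩ := Nat.dvd_factorial he heD
  refine ⟨k * (adv L w).v z, ?_⟩
  rw [hk]
  push_cast
  linear_combination (k : ℤ) * h1

/-- forms of degree `d` with `S`-integral coefficients and good reduction outside `S` -/
def GoodForms (q d : ℕ) {ι : Type} [Fintype ι] (T : ι → MvPolynomial ι K) : Prop :=
  (∀ i, (T i).IsHomogeneous d ∧ ∀ m, IntN q ((T i).coeff m)) ∧
    ∀ i, ∃ (k e : ℕ) (Q : ι → MvPolynomial ι K),
      (∀ j, (Q j).IsHomogeneous e ∧ ∀ m, IntN q ((Q j).coeff m)) ∧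
        MvPolynomial.C ((q : K) ^ k) * MvPolynomial.X i ^ (e + d) = ∑ j, Q j * T j

/-- polynomials of degree less than `d` with `S`-integral coefficients -/
def LowTerms (q d : ℕ) {ι : Type} (R : ι → MvPolynomial ι K) : Prop :=
  ∀ i, (R i).totalDegree < d ∧ ∀ m, IntN q ((R i).coeff m)

/-- `1` and the `u i` generate the same module over the `S`-integers as `1` and `c` -/
def SamePoles (q : ℕ) (c : K) {ι : Type} [Fintype ι] (u : ι → K) : Prop :=
  (∀ i, ∃ x y : K, IntN q x ∧ IntN q y ∧ u i = x + y * c) ∧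
    ∃ (x : K) (y : ι → K), IntN q x ∧ (∀ i, IntN q (y i)) ∧ c = x + ∑ i, y i * u i

/-- the local statement -/
theorem dyn_local {ι : Type} [Fintype ι] {q d : ℕ} (hq : q ≠ 0) (hd : 2 ≤ d)
    {T R : ι → MvPolynomial ι K} {u : ι → K} {c : K} (hT : GoodForms q d T) (hR : LowTerms q d R)
    (hu : SamePoles q c u) {v : HeightOneSpectrum (𝓞 K)} (hv : (adv K v).v (q : K) = 0)
    (hneg : (adv K v).v c < 0) {L : Type} [Field L] [NumberField L] [Algebra K L] {D : ℕ}
    (hL : Module.finrank K L ≤ D) {z : ι → L}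
    (hz : (Set.range fun k : ℕ => (fun (y : ι → L) i =>
      MvPolynomial.aeval y (T i + R i + MvPolynomial.C (u i)))^[k] z).Finite) :
    (d : ℤ) ∣ (D.factorial : ℤ) * (adv K v).v c := by
  classical
  obtain ⟨w, e, he1, heD, hwe⟩ := above_le L v
  have hc0 : c ≠ 0 := by
    rintro rfl
    rw [adv_zero] at hneg
    omega
  have hcL : algebraMap K L c ≠ 0 := (map_ne_zero_iff _ (algebraMap K L).injective).2 hc0
  have hI : ∀ x : K, IntN q x → fv w (algebraMap K L x) ≤ 1 := fun x hx => fv_le_one hwe hq hv hx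
  have hc1 : 1 < fv w (algebraMap K L c) := by
    rw [fv_adv w hcL, hwe]
    apply one_lt_zpow₀ (by linarith [two_le_Nv w])
    have : (0 : ℤ) < e := by exact_mod_cast he1
    nlinarith
  have hule : ∀ i, fv w (algebraMap K L (u i)) ≤ fv w (algebraMap K L c) := by
    intro i
    obtain ⟨x, y, hx, hy, hi⟩ := hu.1 i
    rw [hi, map_add, map_mul]
    refine (fv_na w _ _).trans (max_le ((hI x hx).trans hc1.le) ?_)
    rw [map_mul]
    calc fv w (algebraMap K L y) * fv w (algebraMap K L c) ≤ 1 * fv w (algebraMap K L c) :=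
          mul_le_mul_of_nonneg_right (hI y hy) (AbsoluteValue.nonneg _ _)
      _ = _ := one_mul _
  obtain ⟨i₀, hi₀⟩ : ∃ i, fv w (algebraMap K L (u i)) = fv w (algebraMap K L c) := by
    by_contra hcon
    push Not at hcon
    obtain ⟨x, y, hx, hy, hxy⟩ := hu.2
    have h1 : fv w (algebraMap K L c) = fv w (algebraMap K L x + ∑ i, algebraMap K L (y i) *
        algebraMap K L (u i)) := by
      conv_lhs => rw [hxy]
      rw [map_add, map_sum]
      simp only [map_mul]
    rcases isEmpty_or_nonempty ι with hι | hι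
    · rw [Finset.univ_eq_empty, Finset.sum_empty, add_zero] at h1
      linarith [hI x hx]
    · obtain ⟨j, -, hj⟩ := Finset.exists_max_image Finset.univ
        (fun i => fv w (algebraMap K L (u i))) Finset.univ_nonempty
      have h2 : fv w (∑ i, algebraMap K L (y i) * algebraMap K L (u i)) ≤
          fv w (algebraMap K L (u j)) := by
        apply abs_sum_le (fv w) (fv_na w) _ _ _ (AbsoluteValue.nonneg _ _)
        intro i _
        rw [map_mul]
        calc fv w (algebraMap K L (y i)) * fv w (algebraMap K L (u i))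
            ≤ 1 * fv w (algebraMap K L (u i)) :=
              mul_le_mul_of_nonneg_right (hI _ (hy i)) (AbsoluteValue.nonneg _ _)
          _ ≤ _ := by rw [one_mul]; exact hj i (Finset.mem_univ i)
      have h3 := fv_na w (algebraMap K L x) (∑ i, algebraMap K L (y i) * algebraMap K L (u i))
      rw [← h1] at h3
      rcases le_max_iff.1 h3 with h4 | h4
      · linarith [hI x hx]
      · have h5 := lt_of_le_of_ne (hule j) (hcon j)
        linarith
  have hne : Nonempty ι := ⟨i₀⟩
  have hdata : Data (L := L) (fv w) d T R := by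
    refine ⟨fun i => (hT.1 i).1, fun i m => hI _ ((hT.1 i).2 m), fun i => (hR i).1,
      fun i m => hI _ ((hR i).2 m), fun i => ?_⟩
    obtain ⟨k, e', Q, hQ, hid⟩ := hT.2 i
    refine ⟨(q : K) ^ k, e', Q, ?_, fun j => (hQ j).1, fun j m => hI _ ((hQ j).2 m), hid⟩
    have hqK : (q : K) ≠ 0 := Nat.cast_ne_zero.2 hq
    have hqL : algebraMap K L (q : K) ≠ 0 := (map_ne_zero_iff _ (algebraMap K L).injective).2 hqK
    rw [map_pow, map_pow, fv_adv w hqL, hwe, hv, mul_zero, neg_zero, zpow_zero, one_pow]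
  obtain ⟨i, hi⟩ := finite_orbit (fv_na w) hd hdata hc1 hule hi₀ hz
  exact dvd_of_fv he1 hwe (heD.trans hL) hc0 (by omega) hi

/-- **Polynomial maps of large degree.** -/
theorem dyn (F G : Polynomial K) (hcop : IsCoprime F G) (hG : G ≠ 0)
    (h2 : ¬ ∃ (a b : K) (m : ℕ), G = Polynomial.C a * (Polynomial.X - Polynomial.C b) ^ m)
    (q M D : ℕ) (hq : q ≠ 0) :
    ∃ (n₀ : ℕ) (E : Set K), E.Finite ∧ ∀ t ∉ E, Adm q M t → G.eval t ≠ 0 →
      ∀ (ι : Type) [Fintype ι] (d : ℕ), n₀ ≤ d → ∀ (T R : ι → MvPolynomial ι K) (u : ι → K),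
        GoodForms q d T → LowTerms q d R → SamePoles q (F.eval t / G.eval t) u →
        ∀ (L : Type) [Field L] [NumberField L] [Algebra K L], Module.finrank K L ≤ D →
          ∀ z : ι → L, (Set.range fun k : ℕ => (fun (y : ι → L) i =>
            MvPolynomial.aeval y (T i + R i + MvPolynomial.C (u i)))^[k] z).Infinite := by
  classical
  have hqK : (q : K) ≠ 0 := Nat.cast_ne_zero.2 hq
  obtain ⟨n₁, hfin⟩ := param F G hcop hG h2 {v | (adv K v).v (q : K) ≠ 0} (supp_finite hqK) q M
    D.factorial hq (Nat.factorial_pos D)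
  refine ⟨n₁ + 2, _, hfin, ?_⟩
  intro t ht hAdm hGt ι _ d hd T R u hT hR hu L _ _ _ hL z hz
  apply ht
  refine ⟨hAdm, hGt, d, by omega, fun v hv hneg => ?_⟩
  simp only [Set.mem_ofPred_eq, not_not] at hv
  exact dyn_local hq (by omega) hT hR hu hv hneg hL hz

end

end Run7.h197.Q
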