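import Pool.Agent.Run7.h197.Q.RepK

/-!
The distance from `1` of the elements of a number field whose valuations outside of a finite set of
primes are divisible by a large number `n`.
-/

set_option autoImplicit false

namespace Run7.h197.Q

open NumberField IsDedekindDomain Finset Pool.Agent.H691R3 Pool.Agent.Y673.Loc Pool.Agent.Y673.Cnt
open Run7.h197.ST Height
open Pool.Agent.Y913.Bk (PolyB)

variable {K : Type} [Field K] [NumberField K]

lemma abs_pow_sub_one (z : ℂ) (h d X : ℕ) (hz : ‖z - 1‖ ≤ 2 ^ d / 2 ^ X) :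
    ‖z ^ h - 1‖ ≤ 2 ^ (h * (d + 1) + d + h) / 2 ^ X := by
  have hX1 : (1 : ℝ) ≤ 2 ^ X := one_le_pow₀ (by norm_num)
  have h2d : (1 : ℝ) ≤ 2 ^ d := one_le_pow₀ (by norm_num)
  have h1 : ‖z‖ ≤ 2 ^ (d + 1) := by
    calc ‖z‖ = ‖(z - 1) + 1‖ := by ring_nf
      _ ≤ ‖z - 1‖ + ‖(1 : ℂ)‖ := norm_add_le _ _
      _ ≤ 2 ^ d / 2 ^ X + 1 := by
          rw [norm_one]
          linarith
      _ ≤ 2 ^ d + 2 ^ d := by
          have : (2 : ℝ) ^ d / 2 ^ X ≤ 2 ^ d := div_le_self (by positivity) hX1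
          linarith
      _ = _ := by ring
  have h2 : z ^ h - 1 = (z - 1) * ∑ i ∈ Finset.range h, z ^ i := by
    rw [mul_comm, geom_sum_mul]
  rw [h2, norm_mul]
  have h3 : ‖∑ i ∈ Finset.range h, z ^ i‖ ≤ 2 ^ (h * (d + 1) + h) := by
    calc ‖∑ i ∈ Finset.range h, z ^ i‖ ≤ ∑ i ∈ Finset.range h, ‖z ^ i‖ := norm_sum_le _ _
      _ ≤ ∑ _i ∈ Finset.range h, (2 : ℝ) ^ (h * (d + 1)) := by
          apply Finset.sum_le_sum
          intro i hi
          rw [norm_pow]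
          calc ‖z‖ ^ i ≤ (2 ^ (d + 1)) ^ i := pow_le_pow_left₀ (norm_nonneg _) h1 i
            _ = 2 ^ (i * (d + 1)) := by rw [← pow_mul, mul_comm]
            _ ≤ 2 ^ (h * (d + 1)) := by
                apply pow_le_pow_right₀ (by norm_num)
                exact Nat.mul_le_mul_right _ (Finset.mem_range.mp hi).le
      _ = h * 2 ^ (h * (d + 1)) := by rw [Finset.sum_const, Finset.card_range, nsmul_eq_mul]
      _ ≤ 2 ^ h * 2 ^ (h * (d + 1)) := by
          apply mul_le_mul_of_nonneg_right _ (by positivity)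
          exact_mod_cast Nat.lt_two_pow_self.le
      _ = _ := by rw [← pow_add, add_comm]
  calc ‖z - 1‖ * ‖∑ i ∈ Finset.range h, z ^ i‖ ≤ (2 ^ d / 2 ^ X) * 2 ^ (h * (d + 1) + h) :=
        mul_le_mul hz h3 (norm_nonneg _) (by positivity)
    _ = _ := by
        rw [div_mul_eq_mul_div, ← pow_add]
        congr 2
        ring

lemma height_prod_pow {J : Type} [Fintype J] (γ : J → K) (e : J → ℕ) (n : ℕ) (he : ∀ j, e j < n) :
    mulHeight₁ (∏ j, γ j ^ (e j)) ≤ (∏ j, mulHeight₁ (γ j)) ^ n := by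
  calc mulHeight₁ (∏ j, γ j ^ (e j)) ≤ ∏ j, mulHeight₁ (γ j ^ (e j)) := mulHeight₁_prod_le _ _
    _ = ∏ j, mulHeight₁ (γ j) ^ (e j) := Finset.prod_congr rfl fun j _ => mulHeight₁_pow _ _
    _ ≤ ∏ j, mulHeight₁ (γ j) ^ n := by
        apply Finset.prod_le_prod (fun j _ => pow_nonneg (mulHeight₁_nonneg _) _)
        intro j _
        exact pow_le_pow_right₀ (one_le_mulHeight₁ _) (he j).le
    _ = _ := Finset.prod_pow _ _ _

/-- **the distance from `1`** -/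
theorem far_from_one (S : Finset (HeightOneSpectrum (𝓞 K))) (C d : ℕ) :
    ∃ n₀ : ℕ, ∀ n, n₀ ≤ n → ∀ x : K, x ≠ 0 → (∀ v, v ∉ S → (n : ℤ) ∣ (adv K v).v x) →
      (∀ N : ℕ, 1 ≤ N → x ^ N ≠ 1) → ∀ X : ℕ, n ≤ C * X → mulHeight₁ x ≤ 2 ^ (C * X) →
      ∀ φ : K →+* ℂ, (2 : ℝ) ^ d / 2 ^ X < ‖φ x - 1‖ := by
  classical
  obtain ⟨h, J, _, γ, hh, hγ, hrep⟩ := repK S
  obtain ⟨G, hG⟩ : ∃ G : ℕ, ∏ j, mulHeight₁ (γ j : K) ≤ 2 ^ G := by
    obtain ⟨G, hG⟩ := pow_unbounded_of_one_lt (∏ j, mulHeight₁ (γ j : K)) (by norm_num : (1:ℝ) < 2)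
    exact ⟨G, hG.le⟩
  obtain ⟨κ, n₁, hA⟩ := archS (K := K) 1 le_rfl γ hγ (2 * (h * C) + G * C) (h * (d + 1) + d + h)
  obtain ⟨g2, hg2⟩ := ((PolyB.const (4 * C)).mul (PolyB.id.pow κ)).le_two_pow
  refine ⟨n₁ + 2 ^ (g2 + 2), ?_⟩
  intro n hn x hx0 hxS hroot X hnX hxX φ
  by_contra hcl
  push Not at hcl
  have hn1 : 1 ≤ n := le_trans (le_trans Nat.one_le_two_pow (Nat.le_add_left _ _)) hn
  obtain ⟨e, Y, hY0, he, hxY⟩ := hrep n hn1 x hx0 hxS
  obtain ⟨m, hm0, hmH, hmi⟩ := NumberField.exists_nat_le_mulHeight₁ Y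
  have hmK : (m : K) ≠ 0 := Nat.cast_ne_zero.2 hm0
  have hprod0 : (∏ j, (γ j : K) ^ (e j)) ≠ 0 :=
    Finset.prod_ne_zero_iff.mpr fun j _ => pow_ne_zero _ (RingOfIntegers.coe_ne_zero_iff.mpr (hγ j))
  -- the height of `Y`
  have hHY : mulHeight₁ Y ^ n ≤ 2 ^ ((h * C + G * C) * X) := by
    have h1 : Y ^ n = x ^ h * (∏ j, (γ j : K) ^ (e j))⁻¹ := by
      rw [hxY]
      field_simp
    calc mulHeight₁ Y ^ n = mulHeight₁ (Y ^ n) := (mulHeight₁_pow _ _).symm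
      _ = mulHeight₁ (x ^ h * (∏ j, (γ j : K) ^ (e j))⁻¹) := by rw [h1]
      _ ≤ mulHeight₁ (x ^ h) * mulHeight₁ (∏ j, (γ j : K) ^ (e j))⁻¹ := mulHeight₁_mul_le _ _
      _ = mulHeight₁ x ^ h * mulHeight₁ (∏ j, (γ j : K) ^ (e j)) := by
          rw [mulHeight₁_pow, mulHeight₁_inv]
      _ ≤ (2 ^ (C * X)) ^ h * (∏ j, mulHeight₁ (γ j : K)) ^ n := by
          apply mul_le_mul _ (height_prod_pow _ e n he) (mulHeight₁_nonneg _) (by positivity)
          exact pow_le_pow_left₀ (mulHeight₁_nonneg _) hxX _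
      _ ≤ (2 ^ (C * X)) ^ h * (2 ^ G) ^ n := by
          apply mul_le_mul_of_nonneg_left _ (by positivity)
          exact pow_le_pow_left₀ (Finset.prod_nonneg fun j _ => mulHeight₁_nonneg _) hG _
      _ = 2 ^ (C * X * h + G * n) := by rw [← pow_mul, ← pow_mul, ← pow_add]
      _ ≤ _ := by
          apply pow_le_pow_right₀ (by norm_num)
          have h3 : G * n ≤ G * (C * X) := Nat.mul_le_mul_left _ hnX
          calc C * X * h + G * n ≤ C * X * h + G * (C * X) := by omega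
            _ = _ := by ring
  have hm_n : (m : ℝ) ^ n ≤ 2 ^ ((h * C + G * C) * X) :=
    (pow_le_pow_left₀ (Nat.cast_nonneg _) hmH n).trans hHY
  let Y₁ : 𝓞 K := ⟨(m : K) * Y, hmi⟩
  have hY₁ : (Y₁ : K) = (m : K) * Y := rfl
  have hY₁0 : Y₁ ≠ 0 := RingOfIntegers.coe_ne_zero_iff.mp
    (show (Y₁ : K) ≠ 0 by rw [hY₁]; exact mul_ne_zero hmK hY0)
  have hm𝓞 : ((m : 𝓞 K) : K) = (m : K) := by simp
  have hm𝓞0 : (m : 𝓞 K) ≠ 0 := RingOfIntegers.coe_ne_zero_iff.mp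
    (show ((m : 𝓞 K) : K) ≠ 0 by rw [hm𝓞]; exact hmK)
  let a : 𝓞 K := (∏ j, γ j ^ (e j)) * Y₁ ^ n
  let b : 𝓞 K := (m : 𝓞 K) ^ n
  have haK : (a : K) = (∏ j, (γ j : K) ^ (e j)) * (Y₁ : K) ^ n := by
    show algebraMap (𝓞 K) K _ = _
    rw [map_mul, map_prod, map_pow]
    simp only [map_pow]
  have hbK : (b : K) = (m : K) ^ n := by
    show algebraMap (𝓞 K) K _ = _
    rw [map_pow]
    simp
  have hax : (a : K) = x ^ h * (m : K) ^ n := by
    rw [haK, hY₁, hxY, mul_pow]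
    ring
  have ha0 : a ≠ 0 := RingOfIntegers.coe_ne_zero_iff.mp
    (show (a : K) ≠ 0 by rw [hax]; exact mul_ne_zero (pow_ne_zero _ hx0) (pow_ne_zero _ hmK))
  have hb0 : b ≠ 0 := RingOfIntegers.coe_ne_zero_iff.mp
    (show (b : K) ≠ 0 by rw [hbK]; exact pow_ne_zero _ hmK)
  have hquot : ∀ ψ : K →+* ℂ, ψ (a : K) / ψ (b : K) = (ψ x) ^ h := by
    intro ψ
    rw [hax, hbK, map_mul, map_pow, map_pow]
    have h1 : (ψ (m : K)) ^ n ≠ 0 := by
      apply pow_ne_zero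
      rw [map_natCast]
      exact Nat.cast_ne_zero.2 hm0
    field_simp
  have key := hA n (le_trans (Nat.le_add_right _ _) hn) X a b Y₁ (m : 𝓞 K) e (fun _ => 0) ha0 hb0 hY₁0 hm𝓞0 he
    (fun _ => by omega) (by rw [pow_one, haK]) (by rw [pow_one, hbK]; simp) ?_ ?_ φ ?_
  · -- contradiction
    obtain ⟨g, hg⟩ : ∃ g, g = Nat.size n := ⟨_, rfl⟩
    rw [← hg] at key
    have hgg : g2 + 2 < g := by
      rw [hg, Nat.lt_size]
      exact le_trans (Nat.le_add_left _ _) hn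
    have h2gn : 2 ^ (g - 1) ≤ n := by
      rw [← Nat.lt_size, ← hg]
      omega
    have h1 : 4 * C * g ^ κ ≤ 2 ^ g := hg2 g (by omega)
    have h2 : 2 ^ g = 2 * 2 ^ (g - 1) := by
      rw [← pow_succ']
      congr 1
      omega
    have h3 : C * X ≤ C * g ^ κ := Nat.mul_le_mul_left _ key
    have h5 : 0 < C * g ^ κ := by omega
    nlinarith
  · intro ψ
    constructor
    · rw [hax, map_mul, norm_mul, map_pow, norm_pow, map_pow, norm_pow, map_natCast,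
        Complex.norm_natCast]
      calc ‖ψ x‖ ^ h * (m : ℝ) ^ n ≤ (2 ^ (C * X)) ^ h * 2 ^ ((h * C + G * C) * X) := by
            apply mul_le_mul _ hm_n (by positivity) (by positivity)
            exact pow_le_pow_left₀ (norm_nonneg _) ((norm_le_height ψ x).trans hxX) _
        _ = 2 ^ ((2 * (h * C) + G * C) * X) := by
            rw [← pow_mul, ← pow_add]
            congr 1
            ring
    · rw [hbK, map_pow, norm_pow, map_natCast, Complex.norm_natCast]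
      refine hm_n.trans (pow_le_pow_right₀ (by norm_num) ?_)
      apply Nat.mul_le_mul_right
      nlinarith [Nat.zero_le (h * C)]
  · intro N hN heq
    apply hroot (h * N) (Nat.mul_pos hh hN)
    rw [hax, hbK, mul_pow, ← pow_mul, ← pow_mul] at heq
    have h1 : ((m : K) ^ (n * N)) ≠ 0 := pow_ne_zero _ hmK
    exact mul_right_cancel₀ h1 (by rw [heq, one_mul])
  · rw [hquot]
    exact abs_pow_sub_one _ _ _ _ hcl

end Run7.h197.Q
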