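import Pool.Agent.Run7.h197.Q.QST
import Pool.Agent.Run7.h197.ST.MainS
import Pool.Agent.Run7.h197.FMS.Loc
import Pool.Agent.Helper259.HtExt

/-!
Parameters for which the pole orders of a rational function are divisible by a large number.
-/

set_option autoImplicit false

namespace Run7.h197.Q

open NumberField IsDedekindDomain Finset Pool.Agent.H691R3 Pool.Agent.Y673.Loc Pool.Agent.Y673.Cnt
open Run7.h197.ST Height Pool.Agent.Y673.Loc.ZV Pool.Agent.K4H56.IF Polynomial Run7.h197.FMS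

/-- `S`-integral or large at an archimedean place -/
def Adm {K : Type} [Field K] [NumberField K] (q M : ℕ) (t : K) : Prop :=
  IntN q t ∨ ∃ φ : K →+* ℂ, mulHeight₁ t ≤ ‖φ t‖ ^ M

theorem mulHeight₁_ext {K : Type} [Field K] [NumberField K] (L : Type) [Field L] [NumberField L]
    [Algebra K L] (x : K) :
    mulHeight₁ (algebraMap K L x) = mulHeight₁ x ^ Module.finrank K L := by
  have h := Pool.Agent.Helper259.HtExt.mulHeight_ext (L := L) ![x, 1]
  have h2 : (fun i => algebraMap K L (![x, 1] i)) = ![algebraMap K L x, 1] := by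
    funext i
    fin_cases i <;> simp
  rw [h2] at h
  rw [mulHeight₁_eq_mulHeight, mulHeight₁_eq_mulHeight, h]

theorem Adm.map {K : Type} [Field K] [NumberField K] (L : Type) [Field L] [NumberField L]
    [Algebra K L] {q M : ℕ} {t : K} (h : Adm q M t) :
    Adm q (M * Module.finrank K L) (algebraMap K L t) := by
  rcases h with h | ⟨φ, h⟩
  · exact Or.inl (h.map _)
  · right
    let _ : Algebra K ℂ := φ.toAlgebra
    let ψ : L →ₐ[K] ℂ := IsAlgClosed.lift
    refine ⟨ψ.toRingHom, ?_⟩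
    have h1 : ψ.toRingHom (algebraMap K L t) = φ t := ψ.commutes t
    rw [h1, mulHeight₁_ext, pow_mul]
    exact pow_le_pow_left₀ (mulHeight₁_nonneg _) h _

section
variable {K : Type} [Field K] [NumberField K]

/-- **both kinds of parameters** -/
theorem st_adm (S : Set (HeightOneSpectrum (𝓞 K))) (hS : S.Finite) {β β' : K} (hβ : β ≠ β')
    (q M : ℕ) (hq : q ≠ 0) :
    ∃ n₀ : ℕ, {t : K | Adm q M t ∧ ∃ n : ℕ, n₀ ≤ n ∧ PosN S n (t - β) ∧ PosN S n (t - β')}.Finite := by
  obtain ⟨n₁, h₁⟩ := qst S hS hβ M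
  obtain ⟨S', hS'⟩ : ∃ S' : Set (HeightOneSpectrum (𝓞 K)), S' = S ∪ {v | (adv K v).v (q : K) ≠ 0} ∪
    {v | ¬ (adv K v).G 0 β} ∪ {v | ¬ (adv K v).G 0 β'} := ⟨_, rfl⟩
  have hqK : (q : K) ≠ 0 := Nat.cast_ne_zero.2 hq
  have hS'f : S'.Finite := by
    rw [hS']
    exact (((hS.union (supp_finite hqK)).union (pole_finite β)).union (pole_finite β'))
  obtain ⟨n₂, h₂⟩ := stS S' hS'f q hq hβ
  refine ⟨n₁ + n₂, ((h₁.union h₂).union (Set.toFinite {β, β'})).subset ?_⟩
  rintro t ⟨ht, n, hn, hn1, hn2⟩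
  by_cases htβ : t = β
  · right; left; exact htβ
  by_cases htβ' : t = β'
  · right; right; exact htβ'
  left
  rcases ht with ht | ht
  · right
    refine ⟨ht, htβ, htβ', n, by omega, fun v hv => ?_⟩
    simp only [hS', Set.mem_union, Set.mem_ofPred_eq, not_or, not_not] at hv
    obtain ⟨⟨⟨a1, a2⟩, a3⟩, a4⟩ := hv
    have g := ht.G0 hq a2
    have g1 := (g.sub a3).resolve_left (sub_ne_zero.2 htβ)
    have g2 := (g.sub a4).resolve_left (sub_ne_zero.2 htβ')
    constructor
    · rcases g1.lt_or_eq with h | h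
      · exact hn1 v a1 h
      · rw [← h]; exact dvd_zero _
    · rcases g2.lt_or_eq with h | h
      · exact hn2 v a1 h
      · rw [← h]; exact dvd_zero _
  · left
    exact ⟨ht, n, by omega, hn1, hn2⟩

/-- near a root of the denominator -/
theorem pole_val (F G : K[X]) (hG : G ≠ 0) (hcop : IsCoprime F G) {π : K} (hπ : G.eval π = 0) :
    ∃ S : Set (HeightOneSpectrum (𝓞 K)), S.Finite ∧ ∀ v ∉ S, ∀ t : K, G.eval t ≠ 0 →
      0 < (adv K v).v (t - π) →
        (adv K v).E (-((G.rootMultiplicity π : ℤ) * (adv K v).v (t - π))) (F.eval t / G.eval t) := by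
  have hF : F.eval π ≠ 0 := by
    intro h0
    obtain ⟨a, b, hab⟩ := hcop
    have := congrArg (Polynomial.eval π) hab
    rw [eval_add, eval_mul, eval_mul, h0, hπ, mul_zero, mul_zero, add_zero, eval_one] at this
    exact zero_ne_one this
  obtain ⟨S₁, f₁, h₁⟩ := ord_near G hG π
  obtain ⟨S₂, f₂, h₂⟩ := unit_near F hF
  refine ⟨S₁ ∪ S₂, f₁.union f₂, ?_⟩
  intro v hv t ht hpos
  rw [Set.mem_union, not_or] at hv
  have htπ : t ≠ π := fun h => ht (by rw [h]; exact hπ)
  have g1 : (adv K v).G 1 (t - π) := Or.inr (by omega)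
  have k1 := h₁ v hv.1 t htπ g1
  have k2 := h₂ v hv.2 t g1
  have k3 := k2.div k1
  rwa [zero_sub] at k3

lemma dvd_of_dvd_mul {n b : ℕ} (hb : 0 < b) {a : ℤ} (h : (n : ℤ) ∣ (b : ℤ) * a) :
    ((n / n.gcd b : ℕ) : ℤ) ∣ a := by
  have hg : 0 < n.gcd b := Nat.gcd_pos_of_pos_right _ hb
  have h1 : n ∣ b * a.natAbs := by
    have := Int.natAbs_dvd_natAbs.2 h
    rwa [Int.natAbs_natCast, Int.natAbs_mul, Int.natAbs_natCast] at this
  have h2 : n ∣ n.gcd b * a.natAbs := Nat.dvd_gcd_mul_iff_dvd_mul.mpr h1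
  have h3 : n / n.gcd b ∣ a.natAbs := by
    obtain ⟨n', hn'⟩ := Nat.gcd_dvd_left n b
    rw [Nat.div_dvd_iff_dvd_mul (Nat.gcd_dvd_left n b) hg]
    exact h2
  exact Int.natCast_dvd.2 h3

lemma div_gcd_ge {n b k : ℕ} (hb : 0 < b) (h : k * b ≤ n) : k ≤ n / n.gcd b := by
  have hg : 0 < n.gcd b := Nat.gcd_pos_of_pos_right _ hb
  rw [Nat.le_div_iff_mul_le hg]
  exact (Nat.mul_le_mul_left _ (Nat.gcd_le_right _ hb)).trans h

/-- **rational functions with two poles** -/
theorem param_split (F G : K[X]) (hcop : IsCoprime F G) (hG : G ≠ 0) {β β' : K} (hβ : β ≠ β')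
    (hGβ : G.eval β = 0) (hGβ' : G.eval β' = 0) (S : Set (HeightOneSpectrum (𝓞 K))) (hS : S.Finite)
    (q M B : ℕ) (hq : q ≠ 0) (hB : 1 ≤ B) :
    ∃ n₀ : ℕ, {t : K | Adm q M t ∧ G.eval t ≠ 0 ∧ ∃ n : ℕ, n₀ ≤ n ∧ ∀ v ∉ S,
      (adv K v).v (F.eval t / G.eval t) < 0 →
        (n : ℤ) ∣ (B : ℤ) * (adv K v).v (F.eval t / G.eval t)}.Finite := by
  obtain ⟨S₁, f₁, h₁⟩ := pole_val F G hG hcop hGβ
  obtain ⟨S₂, f₂, h₂⟩ := pole_val F G hG hcop hGβ'
  have hm : 0 < G.rootMultiplicity β := (rootMultiplicity_pos hG).2 hGβ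
  have hm' : 0 < G.rootMultiplicity β' := (rootMultiplicity_pos hG).2 hGβ'
  obtain ⟨m, hmd⟩ : ∃ m, m = G.rootMultiplicity β := ⟨_, rfl⟩
  obtain ⟨m', hmd'⟩ : ∃ m', m' = G.rootMultiplicity β' := ⟨_, rfl⟩
  rw [← hmd] at hm h₁
  rw [← hmd'] at hm' h₂
  have hb0 : 0 < B * m * m' := Nat.mul_pos (Nat.mul_pos hB hm) hm'
  obtain ⟨n₁, hfin⟩ := st_adm (S ∪ S₁ ∪ S₂) ((hS.union f₁).union f₂) hβ q M hq
  refine ⟨n₁ * (B * m * m'), hfin.subset ?_⟩
  rintro t ⟨ht, hGt, n, hn, hdvd⟩
  refine ⟨ht, n / n.gcd (B * m * m'), div_gcd_ge hb0 hn, fun v hv hpos => ?_, fun v hv hpos => ?_⟩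
  · simp only [Set.mem_union, not_or] at hv
    have k := (h₁ v hv.1.2 t hGt hpos).2
    have h3 : 0 < (m : ℤ) * (adv K v).v (t - β) := mul_pos (by exact_mod_cast hm) hpos
    have h4 := hdvd v hv.1.1 (by rw [k]; omega)
    rw [k] at h4
    apply dvd_of_dvd_mul hb0
    have h5 := Dvd.dvd.mul_left h4 (-(m' : ℤ))
    have h6 : -(m' : ℤ) * ((B : ℤ) * -((m : ℤ) * (adv K v).v (t - β))) =
        ((B * m * m' : ℕ) : ℤ) * (adv K v).v (t - β) := by push_cast; ring
    rwa [h6] at h5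
  · simp only [Set.mem_union, not_or] at hv
    have k := (h₂ v hv.2 t hGt hpos).2
    have h3 : 0 < (m' : ℤ) * (adv K v).v (t - β') := mul_pos (by exact_mod_cast hm') hpos
    have h4 := hdvd v hv.1.1 (by rw [k]; omega)
    rw [k] at h4
    apply dvd_of_dvd_mul hb0
    have h5 := Dvd.dvd.mul_left h4 (-(m : ℤ))
    have h6 : -(m : ℤ) * ((B : ℤ) * -((m' : ℤ) * (adv K v).v (t - β'))) =
        ((B * m * m' : ℕ) : ℤ) * (adv K v).v (t - β') := by push_cast; ring
    rwa [h6] at h5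

/-- the places above a finite set -/
theorem above_finite (L : Type) [Field L] [NumberField L] [Algebra K L]
    (S : Set (HeightOneSpectrum (𝓞 K))) (hS : S.Finite) :
    ∃ T : Set (HeightOneSpectrum (𝓞 L)), T.Finite ∧ ∀ w ∉ T, ∃ v : HeightOneSpectrum (𝓞 K),
      v ∉ S ∧ ∃ e : ℤ, 0 < e ∧ ∀ x : K, (adv L w).v (algebraMap K L x) = e * (adv K v).v x := by
  obtain ⟨c, hc0, hc⟩ := exists_nat S hS
  have hcL : (c : L) ≠ 0 := Nat.cast_ne_zero.2 hc0
  refine ⟨{w | (adv L w).v (c : L) ≠ 0}, supp_finite hcL, fun w hw => ?_⟩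
  simp only [Set.mem_ofPred_eq, not_not] at hw
  obtain ⟨v, e, he, hve, hcc⟩ := below (K := K) w
  exact ⟨v, fun hvS => hc v hvS (hcc c hw), e, he, hve⟩

/-- two different roots -/
theorem two_roots (G : K[X]) (hG : G ≠ 0) (h : ¬ ∃ (a b : K) (m : ℕ), G = C a * (X - C b) ^ m) :
    ∃ β β' : SplittingField G, β ≠ β' ∧ (G.map (algebraMap K (SplittingField G))).eval β = 0 ∧
      (G.map (algebraMap K (SplittingField G))).eval β' = 0 := by
  classical
  by_contra hcon
  push Not at hcon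
  apply h
  obtain ⟨φ, hφ⟩ : ∃ φ : K →+* SplittingField G, φ = algebraMap K (SplittingField G) := ⟨_, rfl⟩
  rw [← hφ] at hcon
  have hs : (G.map φ).Splits := by rw [hφ]; exact SplittingField.splits G
  have hGm : G.map φ ≠ 0 := Polynomial.map_ne_zero hG
  have hprod := hs.eq_prod_roots
  rcases Multiset.empty_or_exists_mem (G.map φ).roots with h0 | ⟨β, hβ⟩
  · refine ⟨G.leadingCoeff, 0, 0, ?_⟩
    rw [pow_zero, mul_one]
    rw [h0] at hprod
    simp only [Multiset.map_zero, Multiset.prod_zero, mul_one, leadingCoeff_map] at hprod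
    have h1 : G.map φ = (C G.leadingCoeff).map φ := by rw [Polynomial.map_C]; exact hprod
    exact Polynomial.map_injective φ φ.injective h1
  · have hβ0 : (G.map φ).eval β = 0 := (mem_roots hGm).1 hβ
    have hall : ∀ γ ∈ (G.map φ).roots, γ = β := by
      intro γ hγ
      by_contra hne
      exact hcon β γ (fun e => hne e.symm) hβ0 ((mem_roots hGm).1 hγ)
    have hrep := Multiset.eq_replicate_card.2 hall
    -- the root is in the field
    have hint : IsIntegral K β := Algebra.IsIntegral.isIntegral β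
    have hmd : minpoly K β ∣ G := by
      apply minpoly.dvd
      rw [aeval_def, eval₂_eq_eval_map, ← hφ]
      exact hβ0
    have hmd' : (minpoly K β).map φ ∣ G.map φ := Polynomial.map_dvd _ hmd
    have hms : ((minpoly K β).map φ).Splits := hs.of_dvd hGm hmd'
    have hsep : ((minpoly K β).map φ).Separable := (minpoly.irreducible hint).separable.map
    have hnd := nodup_roots hsep
    have hle : ((minpoly K β).map φ).roots ≤ (G.map φ).roots := roots.le_of_dvd hGm hmd'
    have hcard : ((minpoly K β).map φ).roots.card ≤ 1 := by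
      have h1 : ∀ γ ∈ ((minpoly K β).map φ).roots, γ = β := fun γ hγ =>
        hall γ (Multiset.mem_of_le hle hγ)
      calc ((minpoly K β).map φ).roots.card = ((minpoly K β).map φ).roots.toFinset.card :=
            (Multiset.toFinset_card_of_nodup hnd).symm
        _ ≤ ({β} : Finset (SplittingField G)).card := by
            apply Finset.card_le_card
            intro γ hγ
            rw [Finset.mem_singleton]
            exact h1 γ (Multiset.mem_toFinset.1 hγ)
        _ = 1 := Finset.card_singleton _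
    have hdeg : (minpoly K β).natDegree = 1 := by
      have h1 := hms.natDegree_eq_card_roots
      rw [natDegree_map] at h1
      have h2 := minpoly.natDegree_pos hint
      omega
    obtain ⟨b, hb⟩ := minpoly.natDegree_eq_one_iff.1 hdeg
    refine ⟨G.leadingCoeff, b, (G.map φ).roots.card, ?_⟩
    apply Polynomial.map_injective φ φ.injective
    rw [Polynomial.map_mul, Polynomial.map_pow, Polynomial.map_sub, Polynomial.map_X,
      Polynomial.map_C, Polynomial.map_C]
    conv_lhs => rw [hprod, hrep]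
    rw [Multiset.map_replicate, Multiset.prod_replicate, leadingCoeff_map, hφ, hb]

/-- **rational functions with two poles in an extension** -/
theorem param (F G : K[X]) (hcop : IsCoprime F G) (hG : G ≠ 0)
    (h2 : ¬ ∃ (a b : K) (m : ℕ), G = C a * (X - C b) ^ m) (S : Set (HeightOneSpectrum (𝓞 K))) (hS : S.Finite)
    (q M B : ℕ) (hq : q ≠ 0) (hB : 1 ≤ B) :
    ∃ n₀ : ℕ, {t : K | Adm q M t ∧ G.eval t ≠ 0 ∧ ∃ n : ℕ, n₀ ≤ n ∧ ∀ v ∉ S,
      (adv K v).v (F.eval t / G.eval t) < 0 →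
        (n : ℤ) ∣ (B : ℤ) * (adv K v).v (F.eval t / G.eval t)}.Finite := by
  classical
  have : NumberField (SplittingField G) := NumberField.of_module_finite K (SplittingField G)
  obtain ⟨φ, hφ⟩ : ∃ φ : K →+* SplittingField G, φ = algebraMap K (SplittingField G) := ⟨_, rfl⟩
  have hs : (G.map φ).Splits := by rw [hφ]; exact SplittingField.splits G
  have hGm : G.map φ ≠ 0 := Polynomial.map_ne_zero hG
  -- two roots
  obtain ⟨β, β', hββ, hGβ, hGβ'⟩ := two_roots G hG h2
  rw [← hφ] at hGβ hGβ'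
  obtain ⟨T, hT, hTv⟩ := above_finite (SplittingField G) S hS
  obtain ⟨n₀, hfin⟩ := param_split (F.map φ) (G.map φ) (hcop.map (mapRingHom φ)) hGm hββ hGβ hGβ'
    T hT q (M * Module.finrank K (SplittingField G)) B hq hB
  refine ⟨n₀, (hfin.preimage (f := φ) φ.injective.injOn).subset ?_⟩
  rintro t ⟨ht, hGt, n, hn, hd⟩
  have e1 : (G.map φ).eval (φ t) = φ (G.eval t) := eval_map_apply _ _
  have e2 : (F.map φ).eval (φ t) = φ (F.eval t) := eval_map_apply _ _
  refine ⟨?_, ?_, n, hn, fun w hw hneg => ?_⟩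
  · rw [hφ]
    exact ht.map _
  · rw [e1]
    exact (map_ne_zero_iff _ φ.injective).2 hGt
  · obtain ⟨v, hvS, e, he, hve⟩ := hTv w hw
    rw [e1, e2, ← map_div₀, hφ, hve] at hneg ⊢
    have h1 : (adv K v).v (F.eval t / G.eval t) < 0 := by
      by_contra hcon
      push Not at hcon
      have := mul_nonneg he.le hcon
      omega
    have h3 := Dvd.dvd.mul_left (hd v hvS h1) e
    have h4 : e * ((B : ℤ) * (adv K v).v (F.eval t / G.eval t)) =
        (B : ℤ) * (e * (adv K v).v (F.eval t / G.eval t)) := by ring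
    rwa [h4] at h3

end

end Run7.h197.Q
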