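import Pool.Agent.Run7.h197.Q.MI
import Pool.Agent.Run7.h197.ST.SInt

/-!
The theorem of Schinzel and Tijdeman for the elements of a number field which are large at an
archimedean place.
-/

set_option autoImplicit false

namespace Run7.h197.Q

open NumberField IsDedekindDomain Finset Pool.Agent.H691R3 Pool.Agent.Y673.Loc Pool.Agent.Y673.Cnt
open Run7.h197.ST Height Pool.Agent.Y673.Loc.ZV

variable {K : Type} [Field K] [NumberField K]

/-- outside of `S` the positive valuations are divisible by `n` -/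
def PosN (S : Set (HeightOneSpectrum (𝓞 K))) (n : ℕ) (x : K) : Prop :=
  ∀ v ∉ S, 0 < (adv K v).v x → (n : ℤ) ∣ (adv K v).v x

/-- the valuations of two numbers whose difference is a unit -/
lemma two_vals (v : HeightOneSpectrum (𝓞 K)) {x y : K} (hx : x ≠ 0) (hy : y ≠ 0)
    (hxy : (adv K v).E 0 (x - y)) :
    (0 < (adv K v).v x ∧ (adv K v).v y = 0) ∨ (0 < (adv K v).v y ∧ (adv K v).v x = 0) ∨
      (adv K v).v x = (adv K v).v y := by
  have Ex := E_of_ne (w := adv K v) hx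
  have Ey := E_of_ne (w := adv K v) hy
  rcases lt_trichotomy ((adv K v).v x) 0 with h | h | h
  · right; right
    have h1 := Ex.subG hxy.G h
    have h2 : x - (x - y) = y := by ring
    rw [h2] at h1
    exact h1.eq Ey
  · rcases lt_trichotomy ((adv K v).v y) 0 with h' | h' | h'
    · right; right
      have h1 := Ey.addG hxy.G h'
      have h2 : y + (x - y) = x := by ring
      rw [h2] at h1
      exact Ex.eq h1
    · right; right
      rw [h, h']
    · right; left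
      exact ⟨h', h⟩
  · left
    refine ⟨h, ?_⟩
    have h1 := Ex.G.subE hxy h
    have h2 : x - (x - y) = y := by ring
    rw [h2] at h1
    exact Ey.eq h1

lemma quot_val (v : HeightOneSpectrum (𝓞 K)) (n : ℕ) {x y : K} (hx : x ≠ 0) (hy : y ≠ 0)
    (hxy : (adv K v).E 0 (x - y)) (h1 : 0 < (adv K v).v x → (n : ℤ) ∣ (adv K v).v x)
    (h2 : 0 < (adv K v).v y → (n : ℤ) ∣ (adv K v).v y) : (n : ℤ) ∣ (adv K v).v (x / y) := by
  have Ex := E_of_ne (w := adv K v) hx
  have Ey := E_of_ne (w := adv K v) hy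
  rw [(Ex.div Ey).2]
  rcases two_vals v hx hy hxy with ⟨a, b⟩ | ⟨a, b⟩ | a
  · rw [b, sub_zero]
    exact h1 a
  · rw [b, zero_sub, dvd_neg]
    exact h2 a
  · rw [a, sub_self]
    exact dvd_zero _

lemma exists_two_pow (b : ℝ) : ∃ g : ℕ, b ≤ 2 ^ g := by
  obtain ⟨g, hg⟩ := pow_unbounded_of_one_lt b (by norm_num : (1:ℝ) < 2)
  exact ⟨g, hg.le⟩

/-- **Schinzel-Tijdeman at an archimedean place** -/
theorem qst (S : Set (HeightOneSpectrum (𝓞 K))) (hS : S.Finite) {β β' : K} (hβ : β ≠ β') (M : ℕ) :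
    ∃ n₀ : ℕ, {t : K | (∃ φ : K →+* ℂ, mulHeight₁ t ≤ ‖φ t‖ ^ M) ∧ ∃ n : ℕ, n₀ ≤ n ∧
      PosN S n (t - β) ∧ PosN S n (t - β')}.Finite := by
  classical
  have hββ : β - β' ≠ 0 := sub_ne_zero.mpr hβ
  have hS'f := hS.union (adv_finite hββ)
  obtain ⟨S', hS'⟩ : ∃ S' : Finset (HeightOneSpectrum (𝓞 K)), S' = hS'f.toFinset := ⟨_, rfl⟩
  have hSS' : ∀ v, v ∉ S' → v ∉ S ∧ (adv K v).v (β - β') = 0 := by
    intro v hv
    rw [hS', Set.Finite.mem_toFinset] at hv
    simp only [Set.mem_union, Set.mem_ofPred_eq, not_or, not_not] at hv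
    exact hv
  obtain ⟨b, hb⟩ := exists_two_pow (((2 : ℝ) ^ (totalWeight K) * mulHeight₁ β) *
    ((2 : ℝ) ^ (totalWeight K) * mulHeight₁ β'))
  have hw1 : (1 : ℝ) ≤ 2 ^ (totalWeight K) := one_le_pow₀ (by norm_num)
  have hb1 : (2 : ℝ) ^ (totalWeight K) * mulHeight₁ β ≤ 2 ^ b := by
    refine le_trans ?_ hb
    apply le_mul_of_one_le_right (by positivity)
    exact one_le_mul_of_one_le_of_one_le hw1 (one_le_mulHeight₁ _)
  have hb2 : (2 : ℝ) ^ (totalWeight K) * mulHeight₁ β' ≤ 2 ^ b := by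
    refine le_trans ?_ hb
    apply le_mul_of_one_le_left (by positivity)
    exact one_le_mul_of_one_le_of_one_le hw1 (one_le_mulHeight₁ _)
  obtain ⟨c, hc⟩ : ∃ c : ℕ, ∀ φ : K →+* ℂ, ‖φ (β' - β)‖ ≤ 2 ^ c ∧ ‖φ β'‖ ≤ 2 ^ c := by
    obtain ⟨c, hc⟩ := exists_two_pow (mulHeight₁ (β' - β) + mulHeight₁ β')
    refine ⟨c, fun φ => ⟨?_, ?_⟩⟩
    · have h1 := norm_le_height φ (β' - β)
      have h2 := mulHeight₁_nonneg β'
      linarith
    · have h1 := norm_le_height φ β'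
      have h2 := mulHeight₁_nonneg (β' - β)
      linarith
  obtain ⟨C, hC⟩ : ∃ C, C = b + 4 * M + 1 := ⟨_, rfl⟩
  obtain ⟨n₁, hfar⟩ := far_from_one S' C (c + 1)
  obtain ⟨X₀, hX₀⟩ : ∃ X₀, X₀ = n₁ + c + 2 := ⟨_, rfl⟩
  refine ⟨n₁, ?_⟩
  -- three finite sets
  have hfin1 : {t : K | mulHeight₁ t ≤ 2 ^ (M * (X₀ + 1))}.Finite :=
    NumberField.finite_setOfPred_mulHeight₁_le K _
  have hfin2 := (NumberField.finite_setOfPred_mulHeight₁_le (K := K) 1).image
    (fun ρ : K => (β - ρ * β') / (1 - ρ))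
  refine ((hfin1.union hfin2).union (Set.toFinite {β, β'})).subset ?_
  rintro t ⟨⟨φ, hφ⟩, n, hn, hn1, hn2⟩
  by_cases htβ : t = β
  · right; left; exact htβ
  by_cases htβ' : t = β'
  · right; right; exact htβ'
  left
  have hx0 : t - β ≠ 0 := sub_ne_zero.mpr htβ
  have hy0 : t - β' ≠ 0 := sub_ne_zero.mpr htβ'
  obtain ⟨ρ, hρ⟩ : ∃ ρ, ρ = (t - β) / (t - β') := ⟨_, rfl⟩
  have hρ0 : ρ ≠ 0 := by rw [hρ]; exact div_ne_zero hx0 hy0
  have hρ1 : ρ - 1 = (β' - β) / (t - β') := by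
    rw [hρ]
    field_simp
    ring
  have hρne : 1 - ρ ≠ 0 := by
    intro h0
    have h1 : ρ - 1 = 0 := by linear_combination -h0
    rw [hρ1] at h1
    rcases div_eq_zero_iff.mp h1 with h2 | h2
    · exact hβ (sub_eq_zero.mp h2).symm
    · exact hy0 h2
  have htρ : t = (β - ρ * β') / (1 - ρ) := by
    rw [eq_div_iff hρne]
    have h1 : ρ * (t - β') = t - β := by rw [hρ]; field_simp
    linear_combination -h1
  by_cases hroot : ∀ N : ℕ, 1 ≤ N → ρ ^ N ≠ 1
  swap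
  · right
    push Not at hroot
    obtain ⟨N, hN, hρN⟩ := hroot
    refine ⟨ρ, ?_, htρ.symm⟩
    have h1 : mulHeight₁ ρ ^ N = 1 := by rw [← mulHeight₁_pow, hρN, mulHeight₁_one]
    have h2 : mulHeight₁ ρ = 1 :=
      (pow_eq_one_iff_of_nonneg (mulHeight₁_nonneg _) (by omega)).mp h1
    exact h2.le
  left
  by_contra hbig
  simp only [Set.mem_ofPred_eq, not_le] at hbig
  -- the size
  have hφ1 : 1 ≤ ‖φ t‖ := by
    by_contra hlt
    push Not at hlt
    have h1 : ‖φ t‖ ^ M ≤ 1 := pow_le_one₀ (norm_nonneg _) hlt.le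
    have h2 : (1 : ℝ) ≤ 2 ^ (M * (X₀ + 1)) := one_le_pow₀ (by norm_num)
    linarith
  obtain ⟨X, hX1, hX2⟩ := exists_nat_pow_near hφ1 (by norm_num : (1 : ℝ) < 2)
  have hHt : mulHeight₁ t ≤ 2 ^ (M * (X + 1)) := by
    calc mulHeight₁ t ≤ ‖φ t‖ ^ M := hφ
      _ ≤ (2 ^ (X + 1)) ^ M := pow_le_pow_left₀ (norm_nonneg _) hX2.le _
      _ = _ := by rw [← pow_mul, mul_comm]
  have hXX : X₀ < X := by
    by_contra hle
    push Not at hle
    have h1 : (2 : ℝ) ^ (M * (X + 1)) ≤ 2 ^ (M * (X₀ + 1)) := by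
      apply pow_le_pow_right₀ (by norm_num)
      exact Nat.mul_le_mul_left _ (by omega)
    linarith
  have hX1' : 1 ≤ X := by omega
  have hMX : M * (X + 1) ≤ 2 * (M * X) := by
    have : M * 1 ≤ M * X := Nat.mul_le_mul_left _ hX1'
    rw [Nat.mul_add]
    omega
  have hbX : b ≤ b * X := Nat.le_mul_of_pos_right _ hX1'
  have hCX : C * X = b * X + 4 * (M * X) + X := by rw [hC]; ring
  have hxH : mulHeight₁ (t - β) ≤ 2 ^ (b + M * (X + 1)) := by
    calc mulHeight₁ (t - β) ≤ 2 ^ totalWeight K * mulHeight₁ t * mulHeight₁ β := mulHeight₁_sub_le _ _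
      _ = (2 ^ totalWeight K * mulHeight₁ β) * mulHeight₁ t := by ring
      _ ≤ 2 ^ b * 2 ^ (M * (X + 1)) := mul_le_mul hb1 hHt (mulHeight₁_nonneg _) (by positivity)
      _ = _ := by rw [← pow_add]
  have hyH : mulHeight₁ (t - β') ≤ 2 ^ (b + M * (X + 1)) := by
    calc mulHeight₁ (t - β') ≤ 2 ^ totalWeight K * mulHeight₁ t * mulHeight₁ β' := mulHeight₁_sub_le _ _
      _ = (2 ^ totalWeight K * mulHeight₁ β') * mulHeight₁ t := by ring
      _ ≤ 2 ^ b * 2 ^ (M * (X + 1)) := mul_le_mul hb2 hHt (mulHeight₁_nonneg _) (by positivity)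
      _ = _ := by rw [← pow_add]
  have hρH : mulHeight₁ ρ ≤ 2 ^ (C * X) := by
    have h1 : ρ = (t - β) * (t - β')⁻¹ := by rw [hρ, div_eq_mul_inv]
    calc mulHeight₁ ρ = mulHeight₁ ((t - β) * (t - β')⁻¹) := by rw [h1]
      _ ≤ mulHeight₁ (t - β) * mulHeight₁ (t - β')⁻¹ := mulHeight₁_mul_le _ _
      _ = mulHeight₁ (t - β) * mulHeight₁ (t - β') := by rw [mulHeight₁_inv]
      _ = (t - β |> mulHeight₁) * (t - β' |> mulHeight₁) := rfl
      _ ≤ ((2 ^ totalWeight K * mulHeight₁ β) * mulHeight₁ t) *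
            ((2 ^ totalWeight K * mulHeight₁ β') * mulHeight₁ t) := by
          apply mul_le_mul _ _ (mulHeight₁_nonneg _) _
          · calc mulHeight₁ (t - β) ≤ 2 ^ totalWeight K * mulHeight₁ t * mulHeight₁ β :=
                  mulHeight₁_sub_le _ _
              _ = _ := by ring
          · calc mulHeight₁ (t - β') ≤ 2 ^ totalWeight K * mulHeight₁ t * mulHeight₁ β' :=
                  mulHeight₁_sub_le _ _
              _ = _ := by ring
          · have := mulHeight₁_nonneg β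
            have := mulHeight₁_nonneg t
            positivity
      _ = (((2 : ℝ) ^ (totalWeight K) * mulHeight₁ β) *
            ((2 : ℝ) ^ (totalWeight K) * mulHeight₁ β')) * (mulHeight₁ t) ^ 2 := by ring
      _ ≤ 2 ^ b * (2 ^ (M * (X + 1))) ^ 2 := by
          apply mul_le_mul hb _ (by have := mulHeight₁_nonneg t; positivity) (by positivity)
          exact pow_le_pow_left₀ (mulHeight₁_nonneg _) hHt 2
      _ = 2 ^ (b + 2 * (M * (X + 1))) := by rw [← pow_mul, ← pow_add, mul_comm 2]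
      _ ≤ 2 ^ (C * X) := by
          apply pow_le_pow_right₀ (by norm_num)
          omega
  have hclose : ‖φ ρ - 1‖ ≤ 2 ^ (c + 1) / 2 ^ X := by
    have h1 : φ ρ - 1 = φ (β' - β) / φ (t - β') := by
      rw [← map_div₀, ← hρ1, map_sub, map_one]
    have h2 : (2 : ℝ) ^ X / 2 ≤ ‖φ (t - β')‖ := by
      rw [map_sub]
      have h3 := norm_sub_norm_le (φ t) (φ β')
      have h4 : (2 : ℝ) ^ (c + 1) ≤ 2 ^ X := pow_le_pow_right₀ (by norm_num) (by omega)
      have h5 := (hc φ).2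
      rw [pow_succ] at h4
      linarith
    rw [h1, norm_div]
    calc ‖φ (β' - β)‖ / ‖φ (t - β')‖ ≤ 2 ^ c / (2 ^ X / 2) :=
          div_le_div₀ (by positivity) (hc φ).1 (by positivity) h2
      _ = _ := by rw [pow_succ]; field_simp
  have hdiff : ∀ v : HeightOneSpectrum (𝓞 K), (adv K v).v (β - β') = 0 → (adv K v).E 0 ((t - β) - (t - β')) := by
    intro v hv
    have h1 : (t - β) - (t - β') = -(β - β') := by ring
    rw [h1]
    have h2 : (adv K v).E 0 (β - β') := ⟨hββ, hv⟩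
    exact h2.neg
  rcases le_or_gt n (C * X) with hnX | hnX
  · -- many
    have h1 : ∀ v, v ∉ S' → (n : ℤ) ∣ (adv K v).v ρ := by
      intro v hv
      obtain ⟨a1, a2⟩ := hSS' v hv
      rw [hρ]
      exact quot_val v n hx0 hy0 (hdiff v a2) (hn1 v a1) (hn2 v a1)
    exact absurd hclose (not_le.mpr (hfar n hn ρ hρ0 h1 hroot X hnX hρH φ))
  · have hno : ∀ z : K, z ≠ 0 → mulHeight₁ z ≤ 2 ^ (b + M * (X + 1)) → PosN S n z →
        ∀ v ∉ S, ¬ 0 < (adv K v).v z := by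
      intro z hz hzH hzn v hv hpos
      have h1 := Int.le_of_dvd hpos (hzn v hv hpos)
      have h2 := two_pow_le_height v hz n h1
      have h3 : (2 : ℝ) ^ (b + M * (X + 1)) < 2 ^ n := by
        apply pow_lt_pow_right₀ (by norm_num)
        omega
      linarith
    have h1 : ∀ v, v ∉ S' → (n₁ : ℤ) ∣ (adv K v).v ρ := by
      intro v hv
      obtain ⟨a1, a2⟩ := hSS' v hv
      rw [hρ]
      exact quot_val v n₁ hx0 hy0 (hdiff v a2) (fun h => absurd h (hno _ hx0 hxH hn1 v a1))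
        (fun h => absurd h (hno _ hy0 hyH hn2 v a1))
    exact absurd hclose (not_le.mpr (hfar n₁ le_rfl ρ hρ0 h1 hroot X (by omega) hρH φ))

end Run7.h197.Q
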