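import Pool.Agent.Run7.h197.ST.Rep
import Pool.Agent.Run7.h197.ST.ArchS
import Pool.Agent.H57R3.VJ.B

/-!
Elements of a number field whose valuations outside of a finite set of primes are divisible by `n`,
and their distance from `1` at an archimedean place.
-/

set_option autoImplicit false

namespace Run7.h197.Q

open NumberField IsDedekindDomain Finset Pool.Agent.H691R3 Pool.Agent.Y673.Loc Pool.Agent.Y673.Cnt
open Run7.h197.ST Height

variable {K : Type} [Field K] [NumberField K]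

/-- **representation** -/
theorem repK (S : Finset (HeightOneSpectrum (𝓞 K))) :
    ∃ (h : ℕ) (J : Type) (_ : Fintype J) (γ : J → 𝓞 K), 1 ≤ h ∧ (∀ j, γ j ≠ 0) ∧
      ∀ n : ℕ, 1 ≤ n → ∀ x : K, x ≠ 0 → (∀ v, v ∉ S → (n : ℤ) ∣ (adv K v).v x) →
        ∃ (e : J → ℕ) (Y : K), Y ≠ 0 ∧ (∀ j, e j < n) ∧
          x ^ h = (∏ j, (γ j : K) ^ (e j)) * Y ^ n := by
  classical
  obtain ⟨h, r, C, ε, g, hh, hC, hε, hg1, hg2, -, -, -, hrep⟩ := Pool.Agent.Y496.gensC K
  have hg0 : ∀ v, (g v : K) ≠ 0 := by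
    intro v h0
    have h1 := hg1 v
    rw [h0, map_zero] at h1
    have h3 := two_le_Nv v
    have h2 : 0 < (Nv v)⁻¹ ^ h := pow_pos (inv_pos.2 (by linarith)) _
    rw [← h1] at h2
    exact lt_irrefl _ h2
  have hε0 : ∀ j, (ε j : K) ≠ 0 := by
    intro j
    exact RingOfIntegers.coe_ne_zero_iff.mpr (hε j).ne_zero
  refine ⟨h, Fin r ⊕ {v // v ∈ S}, inferInstance, Sum.elim ε (fun v => g v.1), hh, ?_, ?_⟩
  · rintro (j | v)
    · exact (hε j).ne_zero
    · exact RingOfIntegers.coe_ne_zero_iff.mp (hg0 v.1)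
  intro n hn x hx0 hxS
  have hn0 : (n : ℤ) ≠ 0 := by exact_mod_cast (by omega : n ≠ 0)
  have hnpos : (0 : ℤ) < n := by exact_mod_cast (by omega : 0 < n)
  let a : HeightOneSpectrum (𝓞 K) → ℤ := fun v => (adv K v).v x
  let T : Finset (HeightOneSpectrum (𝓞 K)) := S ∪ (adv_finite hx0).toFinset
  have hST : S ⊆ T := Finset.subset_union_left
  obtain ⟨b, -, hb⟩ := hrep T a x (∑ w : InfinitePlace K, |Real.log (w x)| +
    ∑ v ∈ T, |(a v : ℝ)| * Real.log (Nv v)) hx0 (by
      intro v hv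
      rw [fv_eq_one_iff v hx0]
      by_contra hne
      apply hv
      apply Finset.mem_union_right
      rw [Set.Finite.mem_toFinset]
      exact hne) (by
      intro v _
      rw [fv_adv v hx0, inv_zpow']) (by
      intro w
      have h1 : |Real.log (w x)| ≤ ∑ w : InfinitePlace K, |Real.log (w x)| :=
        Finset.single_le_sum (f := fun w : InfinitePlace K => |Real.log (w x)|)
          (fun _ _ => abs_nonneg _) (Finset.mem_univ w)
      have h2 : 0 ≤ ∑ v ∈ T, |(a v : ℝ)| * Real.log (Nv v) :=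
        Finset.sum_nonneg (fun v _ => mul_nonneg (abs_nonneg _) (log_Nv_pos v).le)
      linarith) (by
      have h2 : 0 ≤ ∑ w : InfinitePlace K, |Real.log (w x)| :=
        Finset.sum_nonneg (fun _ _ => abs_nonneg _)
      linarith)
  have hmod0 : ∀ v, v ∉ S → a v % n = 0 := fun v hv => Int.emod_eq_zero_of_dvd (hxS v hv)
  refine ⟨Sum.elim (fun j => (b j % n).toNat) (fun v => (a v.1 % n).toNat),
    (∏ j, (ε j : K) ^ (b j / n)) * ∏ v ∈ T, (g v : K) ^ (a v / n), ?_, ?_, ?_⟩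
  · apply mul_ne_zero
    · exact Finset.prod_ne_zero_iff.mpr (fun j _ => zpow_ne_zero _ (hε0 j))
    · exact Finset.prod_ne_zero_iff.mpr (fun v _ => zpow_ne_zero _ (hg0 v))
  · rintro (j | v)
    · have h1 := Int.emod_nonneg (b j) hn0
      have h2 := Int.emod_lt_of_pos (b j) hnpos
      simp only [Sum.elim_inl]
      omega
    · have h1 := Int.emod_nonneg (a v.1) hn0
      have h2 := Int.emod_lt_of_pos (a v.1) hnpos
      simp only [Sum.elim_inr]
      omega
  · rw [hb, Fintype.prod_sum_type]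
    simp only [Sum.elim_inl, Sum.elim_inr]
    have e1 : ∏ j, (ε j : K) ^ (b j) = (∏ j, (ε j : K) ^ ((b j % n).toNat)) *
        (∏ j, (ε j : K) ^ (b j / n)) ^ n := by
      rw [← Finset.prod_pow, ← Finset.prod_mul_distrib]
      exact Finset.prod_congr rfl (fun j _ => zpow_split' _ (hε0 j) _ n hn)
    have e2 : ∏ v ∈ T, (g v : K) ^ (a v) = (∏ v ∈ T, (g v : K) ^ ((a v % n).toNat)) *
        (∏ v ∈ T, (g v : K) ^ (a v / n)) ^ n := by
      rw [← Finset.prod_pow, ← Finset.prod_mul_distrib]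
      exact Finset.prod_congr rfl (fun v _ => zpow_split' _ (hg0 v) _ n hn)
    have e3 : ∏ v ∈ T, (g v : K) ^ ((a v % n).toNat) =
        ∏ v : {v // v ∈ S}, (g v.1 : K) ^ ((a v.1 % n).toNat) := by
      rw [← Finset.prod_subset hST]
      · exact (Finset.prod_coe_sort S (fun v => (g v : K) ^ ((a v % n).toNat))).symm
      · intro v _ hv
        rw [hmod0 v hv]
        simp
    rw [e1, e2, e3]
    ring

/-- the absolute values are bounded by the height -/
theorem norm_le_height (φ : K →+* ℂ) (x : K) : ‖φ x‖ ≤ mulHeight₁ x := by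
  rw [NumberField.mulHeight₁_eq]
  set v₀ : InfinitePlace K := InfinitePlace.mk φ with hv₀
  have h0 : ‖φ x‖ = v₀ x := (InfinitePlace.apply φ x).symm
  rw [h0]
  have h1 : ∀ v : InfinitePlace K, 1 ≤ max (v x) 1 ^ v.mult := fun v =>
    one_le_pow₀ (le_max_right _ _)
  have h2 : 1 ≤ ∏ᶠ v : FinitePlace K, max (v x) 1 :=
    finprod_induction (p := fun y : ℝ => 1 ≤ y) le_rfl
      (fun a b ha hb => one_le_mul_of_one_le_of_one_le ha hb) (fun v => le_max_right _ _)
  have h3 : v₀ x ≤ ∏ v : InfinitePlace K, max (v x) 1 ^ v.mult := by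
    classical
    rw [← Finset.mul_prod_erase Finset.univ _ (Finset.mem_univ v₀)]
    have h4 : 1 ≤ ∏ v ∈ Finset.univ.erase v₀, max (v x) 1 ^ v.mult :=
      Finset.prod_induction _ (fun y : ℝ => 1 ≤ y)
        (fun a b ha hb => one_le_mul_of_one_le_of_one_le ha hb) le_rfl (fun v _ => h1 v)
    have h5 : v₀ x ≤ max (v₀ x) 1 ^ v₀.mult :=
      (le_max_left _ _).trans (le_self_pow₀ (le_max_right _ _) v₀.mult_ne_zero)
    have h6 : 0 ≤ max (v₀ x) 1 ^ v₀.mult := by positivity
    nlinarith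
  have h4 : 0 ≤ ∏ v : InfinitePlace K, max (v x) 1 ^ v.mult := by
    refine Finset.prod_nonneg fun v _ => by positivity
  nlinarith

/-- a place where the valuation is large -/
theorem two_pow_le_height (v : HeightOneSpectrum (𝓞 K)) {x : K} (hx : x ≠ 0) (n : ℕ)
    (h : (n : ℤ) ≤ (adv K v).v x) : (2 : ℝ) ^ n ≤ mulHeight₁ x := by
  have h1 := Pool.Agent.H57R3.VJ.prod_le_height (inv_ne_zero hx) {FinitePlace.mk v}
  rw [Finset.prod_singleton, mulHeight₁_inv] at h1
  have h2 : fv v x⁻¹ ≤ mulHeight₁ x := (le_max_left _ _).trans h1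
  rw [fv_adv v (inv_ne_zero hx)] at h2
  have h3 : (adv K v).v x⁻¹ = -(adv K v).v x := by
    have := ((ZV.E_of_ne (w := adv K v) hx).inv).2
    simpa using this
  rw [h3, neg_neg] at h2
  have h4 := two_le_Nv v
  calc (2 : ℝ) ^ n ≤ (Nv v) ^ n := pow_le_pow_left₀ (by norm_num) h4 n
    _ = (Nv v) ^ (n : ℤ) := (zpow_natCast _ _).symm
    _ ≤ (Nv v) ^ ((adv K v).v x) := zpow_le_zpow_right₀ (by linarith) h
    _ ≤ _ := h2

end Run7.h197.Q
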